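import Pool.Agent.N926.Qg.H

set_option autoImplicit false

namespace Pool.Agent.Results.MP_d8e6e5_nt.FirstLevels

open Finset

/-- the generalised binomial coefficient `a(a-1)...(a-k+1)/k!` -/
def gbin (a : ℚ) (k : ℕ) : ℚ := (∏ j ∈ range k, (a - j)) / (k.factorial : ℚ)

/-- `S_p(n) = ∑_{k=0}^{n-1} binom(-1/(p+1),k)^(p+1)` -/
def S (p n : ℕ) : ℚ := ∑ k ∈ range n, gbin (-1/((p:ℚ)+1)) k ^ (p+1)

/-- `c_2 = 1`, `c_3 = 3`, and `c_p = 5` for the other primes -/
def c (p : ℕ) : ℕ := if p = 2 then 1 else if p = 3 then 3 else 5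

/-- `ν_p(r) ≥ m`, with the convention `ν_p(0) = +∞` -/
def ValGe (p : ℕ) (r : ℚ) (m : ℕ) : Prop := r = 0 ∨ (m : ℤ) ≤ padicValRat p r

open Pool.Agent.N926.Sup Pool.Agent.N926.Qf Pool.Agent.N926.Qg

theorem S_eq (p n : ℕ) : S p n = ∑ k ∈ range n, fb p k := by
  unfold S fb
  refine sum_congr rfl fun k _ => ?_
  rw [gb_mul_fact]
  rfl

theorem odd_part {p : ℕ} [hp : Fact p.Prime] (h2 : p ≠ 2) {n : ℕ} (h : p ∣ n) : ValGe p (S p n) (c p) := by
  obtain ⟨m, rfl⟩ := h
  rw [S_eq]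
  unfold c
  rw [if_neg h2]
  by_cases h3 : p = 3
  · rw [if_pos h3]
    exact level_three h2 m
  · rw [if_neg h3]
    exact level_five h2 h3 m

theorem two_part {n : ℕ} (hn : 1 ≤ n) : ValGe 2 (S 2 n) ((padicValNat 2 n + 1)/2) := by
  rw [S_eq]
  rcases Nat.eq_zero_or_pos ((padicValNat 2 n + 1)/2) with h0 | h0
  · rw [h0]
    exact Dv.sum _ _ fun k _ => fb_int (p := 2) k
  · obtain ⟨a, ha⟩ : ∃ a, (padicValNat 2 n + 1)/2 = a + 1 := ⟨(padicValNat 2 n + 1)/2 - 1, by omega⟩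
    have h1 : 2^(2*a+1) ∣ n := (pow_dvd_pow 2 (by omega)).trans pow_padicValNat_dvd
    obtain ⟨K, hK⟩ := h1
    have h2 : n = 4^a*(2*K) := by
      rw [hK, pow_succ, pow_mul]
      norm_num
      ring
    have h3 := two_all a K
    rw [← h2] at h3
    rw [ha]
    exact_mod_cast h3

/-- **Q1** holds for `p = 2` and every `n`, and for every prime `p` and every `n` with `p^3 ∤ n`;
moreover `ν_p(S_p(n)) ≥ c_p` for every prime `p` and every `n` divisible by `p`. -/
theorem result (p : ℕ) (hp : p.Prime) (n : ℕ) (hn : 1 ≤ n) :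
    ((p = 2 ∨ ¬ p ^ 3 ∣ n) → ValGe p (S p n) (c p * ((padicValNat p n + 1) / 2))) ∧
    (p ∣ n → ValGe p (S p n) (c p)) := by
  haveI : Fact p.Prime := ⟨hp⟩
  have int0 : ValGe p (S p n) 0 := by
    rw [S_eq]
    exact Dv.sum _ _ fun k _ => fb_int (p := p) k
  by_cases h2 : p = 2
  · subst h2
    have hc : c 2 = 1 := rfl
    have h := two_part hn
    refine ⟨fun _ => by rw [hc, one_mul]; exact h, fun hd => ?_⟩
    rw [hc]
    have hv : 1 ≤ padicValNat 2 n := one_le_padicValNat_of_dvd (by omega) hd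
    rcases h with h | h
    · exact Or.inl h
    · refine Or.inr (le_trans ?_ h)
      have : 1 ≤ (padicValNat 2 n + 1)/2 := by omega
      exact_mod_cast this
  · refine ⟨fun h => ?_, fun hd => odd_part h2 hd⟩
    have h3 : ¬ p^3 ∣ n := h.resolve_left h2
    have hv : padicValNat p n ≤ 2 := by
      by_contra hlt
      exact h3 ((pow_dvd_pow p (by omega)).trans pow_padicValNat_dvd)
    rcases Nat.eq_zero_or_pos (padicValNat p n) with h0 | h0
    · rw [h0]
      exact int0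
    · have hd : p ∣ n := by
        by_contra hnd
        rw [padicValNat.eq_zero_of_not_dvd hnd] at h0
        exact absurd h0 (lt_irrefl 0)
      have : (padicValNat p n + 1)/2 = 1 := by omega
      rw [this, mul_one]
      exact odd_part h2 hd

end Pool.Agent.Results.MP_d8e6e5_nt.FirstLevels
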